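import Pool.Agent.Q151.Thom.Main

/-!
# MP_57deef_al: Thompson's group `F` is not integrable
-/

set_option autoImplicit false

universe u

namespace Pool.Agent.Results.MP_57deef_al.NotIntegrable

open Q151.Thom

/-- No group `H` (in any universe) has a derived subgroup isomorphic to Thompson's group `F`,
where `ThompsonF` is the group with the presentation
`⟨x₀, x₁ | [x₀x₁⁻¹, x₀⁻¹x₁x₀], [x₀x₁⁻¹, x₀⁻²x₁x₀²]⟩`, `[u, v] = u⁻¹v⁻¹uv`. -/
theorem result : ¬ ∃ (H : Type u) (_ : Group H), Nonempty (commutator H ≃* ThompsonF) := by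
  rintro ⟨H, _, ⟨e⟩⟩
  exact (not_integrable H).false e

end Pool.Agent.Results.MP_57deef_al.NotIntegrable
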